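import Pool.Agent.Helper5.CK.ExF
set_option autoImplicit false
open Complex Metric Set Filter Topology
open scoped ComplexConjugate

/-! The variation lemma. -/

namespace Pool.Agent.Helper5.CK

open Pool.Agent.Helper39.Area

theorem norm_ge_of_near {z w p : ℂ} {a b : ℝ} (h : a ≤ ‖z - p‖) (hw : ‖w - z‖ ≤ b) :
    a - b ≤ ‖w - p‖ := by
  have h1 : ‖z - p‖ ≤ ‖w - p‖ + ‖w - z‖ := by
    have : z - p = (w - p) - (w - z) := by ring
    rw [this]; exact norm_sub_le _ _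
  linarith

theorem norm_le_of_near {z w : ℂ} {a b : ℝ} (h : ‖z‖ ≤ a) (hw : ‖w - z‖ ≤ b) :
    ‖w‖ ≤ a + b := by
  have h1 : ‖w‖ ≤ ‖z‖ + ‖w - z‖ := by
    have : w = z + (w - z) := by ring
    calc ‖w‖ = ‖z + (w - z)‖ := by rw [← this]
      _ ≤ _ := norm_add_le _ _
  linarith

/-- algebra of the error terms -/
theorem err_bound {q x : ℂ} {A B A' B' E : ℂ} {k1 k2 k3 k4 k5 k6 : ℝ} (hq : ‖q‖ ≤ 2)
    (hA : ‖A' - A‖ ≤ k1) (hqx : ‖q - (1 - x)‖ ≤ k2) (hA0 : ‖A‖ ≤ k3) (hB : ‖B' - B‖ ≤ k4)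
    (hx : ‖x‖ ≤ k5) (hB0 : ‖B‖ ≤ k6) :
    ‖q * (A' + B' + E) - (1 - x) * A - B‖ ≤
      2 * k1 + k2 * k3 + 2 * k4 + (k2 + k5) * k6 + 2 * ‖E‖ := by
  have h1 : q * (A' + B' + E) - (1 - x) * A - B =
      q * (A' - A) + (q - (1 - x)) * A + q * (B' - B) + ((q - (1 - x)) - x) * B + q * E := by
    ring
  have e1 : ‖q * (A' - A)‖ ≤ 2 * k1 := by
    rw [norm_mul]; exact mul_le_mul hq hA (norm_nonneg _) (by norm_num)
  have e2 : ‖(q - (1 - x)) * A‖ ≤ k2 * k3 := by
    rw [norm_mul]; exact mul_le_mul hqx hA0 (norm_nonneg _) ((norm_nonneg _).trans hqx)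
  have e3 : ‖q * (B' - B)‖ ≤ 2 * k4 := by
    rw [norm_mul]; exact mul_le_mul hq hB (norm_nonneg _) (by norm_num)
  have e4 : ‖((q - (1 - x)) - x) * B‖ ≤ (k2 + k5) * k6 := by
    rw [norm_mul]
    refine mul_le_mul ((norm_sub_le _ _).trans (add_le_add hqx hx)) hB0 (norm_nonneg _) ?_
    exact add_nonneg ((norm_nonneg _).trans hqx) ((norm_nonneg _).trans hx)
  have e5 : ‖q * E‖ ≤ 2 * ‖E‖ := by
    rw [norm_mul]; exact mul_le_mul_of_nonneg_right hq (norm_nonneg _)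
  rw [h1]
  have f1 := norm_add_le (q * (A' - A) + (q - (1 - x)) * A + q * (B' - B) +
    ((q - (1 - x)) - x) * B) (q * E)
  have f2 := norm_add_le (q * (A' - A) + (q - (1 - x)) * A + q * (B' - B))
    (((q - (1 - x)) - x) * B)
  have f3 := norm_add_le (q * (A' - A) + (q - (1 - x)) * A) (q * (B' - B))
  have f4 := norm_add_le (q * (A' - A)) ((q - (1 - x)) * A)
  linarith

theorem exp_bound {x r : ℝ} (hx : |x| ≤ 1 / 2) (hr0 : 0 < r) (hr1 : r < 1) :
    |r / Real.exp x - (1 - x)| ≤ x ^ 2 + 2 * (1 - r) ∧ |r / Real.exp x| ≤ 2 := by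
  have h1 : r / Real.exp x = r * Real.exp (-x) := by rw [Real.exp_neg]; rfl
  have hx' : |(-x)| ≤ 1 := by rw [abs_neg]; linarith
  have h2 := Real.abs_exp_sub_one_sub_id_le hx'
  have h3 : r * Real.exp (-x) - (1 - x) = r * (Real.exp (-x) - 1 - -x) + (r - 1) * (1 - x) := by
    ring
  have h4 : |r * (Real.exp (-x) - 1 - -x)| ≤ x ^ 2 := by
    rw [abs_mul, abs_of_pos hr0]
    have : 0 ≤ |Real.exp (-x) - 1 - -x| := abs_nonneg _
    have h5 : (-x) ^ 2 = x ^ 2 := by ring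
    rw [h5] at h2
    nlinarith
  have hxx := abs_le.mp hx
  have h5 : |(r - 1) * (1 - x)| ≤ 2 * (1 - r) := by
    rw [abs_mul, abs_of_nonpos (by linarith : r - 1 ≤ 0), abs_of_nonneg (by linarith : 0 ≤ 1 - x)]
    nlinarith
  have h6 : |r / Real.exp x - (1 - x)| ≤ x ^ 2 + 2 * (1 - r) := by
    rw [h1, h3]
    exact (abs_add_le _ _).trans (add_le_add h4 h5)
  refine ⟨h6, ?_⟩
  rw [h1, abs_mul, abs_of_pos hr0, abs_of_pos (Real.exp_pos _)]
  have h7 : Real.exp (-x) ≤ 2 := by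
    have h8 := (abs_le.mp h2).2
    have h9 : (-x) ^ 2 ≤ 1 / 4 := by nlinarith
    linarith
  nlinarith [Real.exp_pos (-x)]

theorem aux_mul {r t : ℝ} (h0 : 0 ≤ t) (h1 : t ≤ 1) (hr : r < 1) : -(r - 1) * t ≤ 1 - r := by
  nlinarith

theorem aux_eta {η : ℝ} (h0 : 0 < η) (h1 : η ≤ 1 / 2) : η / 8 ≤ 1 - (1 - η / 8) ^ 2 := by
  nlinarith

theorem aux_lin {C t : ℝ} (hC : 0 < C) (h : t ^ 2 ≤ t) :
    (1 + 2 * C) * t ^ 2 + t ≤ ((1 + 2 * C) + 1) * t := by nlinarith

/-- the lemma for normalised functions -/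
theorem variation_zero {η : ℝ} (hη : 0 < η) (hη2 : η ≤ 1 / 2) : ∃ C t0 : ℝ, 0 < C ∧ 0 < t0 ∧
    ∀ β : ℂ → ℂ, Ext β → β 0 = 0 → ∀ p : ℂ, η ≤ ‖p‖ → ‖p‖ ≤ 1 - η → ∀ τ : ℂ, τ ≠ 0 → ‖τ‖ ≤ t0 →
    ∃ γ : ℂ → ℂ, Ext γ ∧ ∀ z : ℂ, η ≤ ‖z‖ → ‖z‖ ≤ 1 - η → η ≤ ‖z - p‖ →
      ‖deriv γ z - deriv β z - deriv (fun z => VV β p τ z - (τ.re : ℂ) * phi β z) z‖ ≤
        C * ‖τ‖ ^ 2 := by
  obtain ⟨C, t1, hC, ht1, H⟩ := exists_F hη hη2
  obtain ⟨Cb, hCb, Hb⟩ := beta_bd (η := η / 8) (by linarith)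
  obtain ⟨C2, hC2, H2⟩ := expand (η := η / 8) (s := η / 8) (by linarith) (by linarith)
  obtain ⟨t2, ht2, ht2', ht2''⟩ := exists_small (A := C + C2 + 1) (b := η / 8) (by positivity)
    (by linarith)
  -- the constants
  obtain ⟨M1, hM1⟩ : ∃ M1 : ℝ, M1 = (1 / (η / 8 * (η / 8))) / (η / 8) := ⟨_, rfl⟩
  have hM1p : 0 < M1 := by rw [hM1]; positivity
  obtain ⟨M0, hM0⟩ : ∃ M0 : ℝ, M0 = (η / 8)⁻¹ + Cb := ⟨_, rfl⟩
  have hM0p : 0 < M0 := by rw [hM0]; positivity
  obtain ⟨K, hK⟩ : ∃ K : ℝ, K = 2 * (M1 * C) + (1 + 2 * C) * M0 + 2 * (8 / η * C) +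
      ((1 + 2 * C) + 1) * C2 + 2 * C := ⟨_, rfl⟩
  have hKp : 0 < K := by rw [hK]; positivity
  refine ⟨K / (η / 4), min t1 t2, by positivity, lt_min ht1 ht2, ?_⟩
  intro β h hβ0 p hp hp1 τ hτ hτt
  have hτ1 : ‖τ‖ ≤ t1 := hτt.trans (min_le_left _ _)
  have hτ2 : ‖τ‖ ≤ t2 := hτt.trans (min_le_right _ _)
  have hτp : 0 < ‖τ‖ := norm_pos_iff.mpr hτ
  have hτle1 : ‖τ‖ ≤ 1 := hτ2.trans ht2'
  have hτC : C * ‖τ‖ ≤ η / 8 :=
    small_of ht2'' hτ2 (by linarith only [hC2]) (norm_nonneg _) (by positivity)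
  have hτC2 : C2 * ‖τ‖ ≤ η / 8 :=
    small_of ht2'' hτ2 (by linarith only [hC]) (norm_nonneg _) (by positivity)
  have hτ8 : ‖τ‖ ≤ η / 8 := by
    have := small_of (A := 1) ht2'' hτ2 (by linarith only [hC, hC2]) (norm_nonneg _) (by positivity)
    rwa [one_mul] at this
  have hsq : ‖τ‖ ^ 2 ≤ ‖τ‖ := sq_le_self' (norm_nonneg _) hτle1
  obtain ⟨F, r, hr0, hr1, hr, hFd, hFi, hFl, hFe⟩ := H β h p hp hp1 τ hτ hτ1
  have hr8 : 1 - r ≤ η / 8 := by
    have : C * ‖τ‖ ^ 2 ≤ C * ‖τ‖ := mul_le_mul_of_nonneg_left hsq hC.le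
    linarith
  have hc0 : (Real.exp τ.re : ℂ) ≠ 0 := by exact_mod_cast (Real.exp_pos _).ne'
  obtain ⟨γ, hγ, hγe⟩ := normalise hr0 hr1.le
    (hFd.mono (sdiff_subset_sdiff_left (ball_subset_ball hr1.le))) hFi hc0 hFl
  refine ⟨γ, hγ, ?_⟩
  have hp1' : ‖p‖ < 1 := by linarith
  have hpb : p ∈ ball (0:ℂ) 1 := by simpa using hp1'
  have hp0 : p ≠ 0 := by
    intro h0; rw [h0, norm_zero] at hp; linarith
  obtain ⟨V, hVd, hV⟩ := reg_ext h hpb hp0 τ
  have hDo : IsOpen (ball (0:ℂ) 1 \ {0}) := isOpen_ball.sdiff isClosed_singleton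
  have hmem : ∀ w : ℂ, 0 < ‖w‖ → ‖w‖ < 1 → w ∈ ball (0:ℂ) 1 \ {0} := by
    intro w h1 h2
    exact ⟨by simpa using h2, fun h3 => by
      rw [mem_singleton_iff] at h3; rw [h3, norm_zero] at h1; exact lt_irrefl _ h1⟩
  have hVV : ∀ w : ℂ, 0 < ‖w‖ → ‖w‖ < 1 → 0 < ‖w - p‖ → V w = VV β p τ w := by
    intro w h1 h2 h3
    refine hV w (hmem w h1 h2) ?_
    rintro rfl; rw [sub_self, norm_zero] at h3; exact lt_irrefl _ h3
  have hVb : ∀ w : ℂ, η / 8 ≤ ‖w‖ → ‖w‖ ≤ 1 - η / 8 → η / 8 ≤ ‖w - p‖ → ‖V w‖ ≤ C2 * ‖τ‖ := by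
    intro w h1 h2 h3
    rw [hVV w (by linarith) (by linarith) (by linarith)]
    exact (H2 β h p (by linarith) (by linarith) τ (by linarith) w h1 h2 h3).1
  intro z hz hz1 hzp
  set G : ℂ → ℂ := fun w => γ w - β w - (V w - (τ.re : ℂ) * phi β w) with hG
  have hφd : ∀ w : ℂ, 0 < ‖w‖ → ‖w‖ < 1 → DifferentiableAt ℂ (phi β) w := fun w h1 h2 =>
    (hasDerivAt_phi h.diff (hmem w h1 h2).1 (hmem w h1 h2).2).differentiableAt
  have hγd : ∀ w : ℂ, ‖w‖ < 1 → DifferentiableAt ℂ γ w := fun w h2 =>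
    hγ.diff.differentiableAt (isOpen_ball.mem_nhds (by simpa using h2))
  have hβd : ∀ w : ℂ, ‖w‖ < 1 → DifferentiableAt ℂ β w := fun w h2 =>
    h.diff.differentiableAt (isOpen_ball.mem_nhds (by simpa using h2))
  have hVdd : ∀ w : ℂ, 0 < ‖w‖ → ‖w‖ < 1 → DifferentiableAt ℂ V w := fun w h1 h2 =>
    hVd.differentiableAt (hDo.mem_nhds (hmem w h1 h2))
  have hGd : ∀ w : ℂ, 0 < ‖w‖ → ‖w‖ < 1 → DifferentiableAt ℂ G w := by
    intro w h1 h2
    exact ((hγd w h2).sub (hβd w h2)).sub ((hVdd w h1 h2).sub ((hφd w h1 h2).const_mul _))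
  have hz0 : 0 < ‖z‖ := by linarith
  have hz1' : ‖z‖ < 1 := by linarith
  have hder : deriv γ z - deriv β z - deriv (fun z => VV β p τ z - (τ.re : ℂ) * phi β z) z =
      deriv G z := by
    have h1 : (fun z => VV β p τ z - (τ.re : ℂ) * phi β z) =ᶠ[𝓝 z]
        fun z => V z - (τ.re : ℂ) * phi β z := by
      have h2 : (ball (0:ℂ) 1 \ {0}) \ {p} ∈ 𝓝 z := by
        apply (hDo.sdiff isClosed_singleton).mem_nhds
        refine ⟨hmem z hz0 hz1', ?_⟩
        rintro (rfl : z = p)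
        rw [sub_self, norm_zero] at hzp; linarith
      filter_upwards [h2] with w hw
      rw [hV w hw.1 hw.2]
    rw [h1.deriv_eq, hG]
    have h3 := (hγd z hz1').hasDerivAt.sub (hβd z hz1').hasDerivAt
    have h4 := (hVdd z hz0 hz1').sub ((hφd z hz0 hz1').const_mul (τ.re : ℂ))
    exact ((h3.sub h4.hasDerivAt).deriv).symm
  rw [hder]
  have hsup : ∀ w ∈ sphere z (η / 4), ‖G w‖ ≤ K * ‖τ‖ ^ 2 := by
    intro w hw
    rw [mem_sphere, dist_eq_norm] at hw
    have w1 : 3 * η / 4 ≤ ‖w‖ := by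
      have := norm_ge_of_near (p := 0) (a := η) (by simpa using hz) hw.le
      rw [sub_zero] at this; linarith
    have w2 : ‖w‖ ≤ 1 - 3 * η / 4 := by
      have := norm_le_of_near hz1 hw.le; linarith
    have w3 : 3 * η / 4 ≤ ‖w - p‖ := by
      have := norm_ge_of_near hzp hw.le; linarith
    have hrw : ‖(r:ℂ) * w - w‖ ≤ 1 - r := by
      have : (r:ℂ) * w - w = ((r - 1 : ℝ) : ℂ) * w := by push_cast; ring
      rw [this, norm_mul, Complex.norm_real, Real.norm_eq_abs, abs_of_nonpos (by linarith)]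
      exact aux_mul (norm_nonneg w) (by linarith) hr1
    have r1 : η / 2 ≤ ‖(r:ℂ) * w‖ := by
      have := norm_ge_of_near (p := 0) (a := 3 * η / 4) (by simpa using w1) (hrw.trans hr8)
      rw [sub_zero] at this; linarith
    have r2 : ‖(r:ℂ) * w‖ ≤ 1 - η / 2 := by
      have := norm_le_of_near w2 (hrw.trans hr8); linarith
    have r3 : η / 2 ≤ ‖(r:ℂ) * w - p‖ := by
      have := norm_ge_of_near w3 (hrw.trans hr8); linarith
    have hw0 : w ≠ 0 := norm_pos_iff.mp (by linarith)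
    have hrw0 : (r:ℂ) * w ≠ 0 := norm_pos_iff.mp (by linarith)
    have hwb : w ∈ ball (0:ℂ) 1 := by
      rw [mem_ball, dist_zero_right]; linarith
    -- the value of `γ`
    have k1 := hγe w hwb hw0
    obtain ⟨E, hE⟩ : ∃ E : ℂ, E = F (r * w) - phi β (r * w) - VV β p τ (r * w) := ⟨_, rfl⟩
    have hEb : ‖E‖ ≤ C * ‖τ‖ ^ 2 := by
      rw [hE]; exact hFe (r * w) (by linarith) (by linarith) (by linarith)
    have k2 : G w = (r / (Real.exp τ.re : ℂ)) * (phi β (r * w) + V (r * w) + E) -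
        (1 - (τ.re : ℂ)) * phi β w - V w := by
      have k3 : F (r * w) = phi β (r * w) + V (r * w) + E := by
        rw [hE, hVV (r * w) (by linarith) (by linarith) (by linarith)]; ring
      rw [← k3, ← k1, hG]
      unfold phi
      ring
    rw [k2]
    have hxre : |τ.re| ≤ ‖τ‖ := Complex.abs_re_le_norm τ
    have hx12 : |τ.re| ≤ 1 / 2 := by linarith
    obtain ⟨x1, x2⟩ := exp_bound hx12 hr0 hr1
    have hq : ((r : ℂ) / (Real.exp τ.re : ℂ)) = ((r / Real.exp τ.re : ℝ) : ℂ) := by push_cast; rfl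
    have q1 : ‖((r : ℂ) / (Real.exp τ.re : ℂ))‖ ≤ 2 := by
      rw [hq, Complex.norm_real]; exact x2
    have q2 : ‖((r : ℂ) / (Real.exp τ.re : ℂ)) - (1 - (τ.re : ℂ))‖ ≤ (1 + 2 * C) * ‖τ‖ ^ 2 := by
      have : ((r : ℂ) / (Real.exp τ.re : ℂ)) - (1 - (τ.re : ℂ)) =
          ((r / Real.exp τ.re - (1 - τ.re) : ℝ) : ℂ) := by push_cast; rfl
      rw [this, Complex.norm_real]
      refine x1.trans ?_
      have h5 : τ.re ^ 2 ≤ ‖τ‖ ^ 2 := by
        rw [← sq_abs]; exact pow_le_pow_left₀ (abs_nonneg _) hxre 2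
      linarith
    have a1 : ‖phi β (r * w) - phi β w‖ ≤ M1 * C * ‖τ‖ ^ 2 := by
      have b1 := Pool.Agent.Helper77.CK.phi_sub_le h hw0 hrw0 (s := 1 - η / 8) (by linarith)
        (by linarith) (by linarith)
      have b2 := norm_inv_sub_le (x := (r:ℂ) * w) (y := w) (a := η / 8) (b := η / 8) (by linarith)
        (by linarith) (by linarith) (by linarith)
      have b3 : ‖((r:ℂ) * w)⁻¹ - w⁻¹‖ ≤ (C * ‖τ‖ ^ 2) / (η / 8 * (η / 8)) :=
        b2.trans (div_le_div_of_nonneg_right (hrw.trans hr) (by positivity))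
      calc ‖phi β (r * w) - phi β w‖ ≤ ‖((r:ℂ) * w)⁻¹ - w⁻¹‖ / (1 - (1 - η / 8) ^ 2) := b1
        _ ≤ ((C * ‖τ‖ ^ 2) / (η / 8 * (η / 8))) / (η / 8) := by
            exact div_le_div₀ (by positivity) b3 (by linarith) (aux_eta hη hη2)
        _ = M1 * C * ‖τ‖ ^ 2 := by rw [hM1]; field_simp
    have a2 : ‖phi β w‖ ≤ M0 := by
      unfold phi
      refine (norm_add_le _ _).trans ?_
      rw [hM0]
      apply add_le_add
      · rw [norm_inv]
        exact inv_anti₀ (by linarith) (by linarith)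
      · exact Hb β h hβ0 w (by linarith)
    have a3 : ‖V (r * w) - V w‖ ≤ 8 / η * C * ‖τ‖ ^ 2 := by
      have c1 : ‖V (r * w) - V w‖ ≤ 8 / η * ‖(r:ℂ) * w - w‖ := by
        refine Convex.norm_image_sub_le_of_norm_deriv_le (f := V) (s := closedBall w (η / 8))
          ?_ ?_ (convex_closedBall w (η / 8)) ?_ ?_
        · intro v hv
          rw [mem_closedBall, dist_eq_norm] at hv
          have v1 := norm_ge_of_near (p := 0) (a := 3 * η / 4) (by simpa using w1) hv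
          have v2 := norm_le_of_near w2 hv
          rw [sub_zero] at v1
          exact hVdd v (by linarith) (by linarith)
        · intro v hv
          rw [mem_closedBall, dist_eq_norm] at hv
          have v1 := norm_ge_of_near (p := 0) (a := 3 * η / 4) (by simpa using w1) hv
          have v2 := norm_le_of_near w2 hv
          have v3 := norm_ge_of_near w3 hv
          rw [sub_zero] at v1
          have c2 : ‖deriv V v‖ ≤ C2 * ‖τ‖ / (η / 8) := by
            apply Complex.norm_deriv_le_of_forall_mem_sphere_norm_le (by linarith)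
            · apply DifferentiableOn.diffContOnCl
              rw [closure_ball v (by linarith)]
              intro u hu
              rw [mem_closedBall, dist_eq_norm] at hu
              have u1 := norm_ge_of_near (p := 0) (a := 3 * η / 4 - η / 8)
                (by rw [sub_zero]; exact v1) hu
              have u2 := norm_le_of_near v2 hu
              rw [sub_zero] at u1
              exact (hVdd u (by linarith) (by linarith)).differentiableWithinAt
            · intro u hu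
              rw [mem_sphere, dist_eq_norm] at hu
              have u1 := norm_ge_of_near (p := 0) (a := 3 * η / 4 - η / 8)
                (by rw [sub_zero]; exact v1) hu.le
              have u2 := norm_le_of_near v2 hu.le
              have u3 := norm_ge_of_near v3 hu.le
              rw [sub_zero] at u1
              exact hVb u (by linarith) (by linarith) (by linarith)
          refine c2.trans ?_
          rw [div_le_iff₀ (by linarith)]
          have : 8 / η * (η / 8) = 1 := by field_simp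
          rw [this]
          linarith
        · exact mem_closedBall_self (by linarith)
        · rw [mem_closedBall, dist_eq_norm]
          exact hrw.trans hr8
      refine c1.trans ?_
      have : 8 / η * ‖(r:ℂ) * w - w‖ ≤ 8 / η * (C * ‖τ‖ ^ 2) :=
        mul_le_mul_of_nonneg_left (hrw.trans hr) (by positivity)
      linarith
    have a4 : ‖V w‖ ≤ C2 * ‖τ‖ := hVb w (by linarith) (by linarith) (by linarith)
    have a5 : ‖((τ.re : ℝ) : ℂ)‖ ≤ ‖τ‖ := by rw [Complex.norm_real]; exact hxre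
    have a6 := err_bound (E := E) q1 a1 q2 a2 a3 a5 a4
    refine a6.trans ?_
    rw [hK]
    have s1 : ((1 + 2 * C) * ‖τ‖ ^ 2 + ‖τ‖) * (C2 * ‖τ‖) ≤ ((1 + 2 * C) + 1) * C2 * ‖τ‖ ^ 2 := by
      have : (1 + 2 * C) * ‖τ‖ ^ 2 + ‖τ‖ ≤ ((1 + 2 * C) + 1) * ‖τ‖ := aux_lin hC hsq
      calc ((1 + 2 * C) * ‖τ‖ ^ 2 + ‖τ‖) * (C2 * ‖τ‖) ≤ (((1 + 2 * C) + 1) * ‖τ‖) * (C2 * ‖τ‖) :=
            mul_le_mul_of_nonneg_right this (by positivity)
        _ = _ := by ring
    linarith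
  have hfin : ‖deriv G z‖ ≤ K * ‖τ‖ ^ 2 / (η / 4) := by
    apply Complex.norm_deriv_le_of_forall_mem_sphere_norm_le (by linarith) _ hsup
    apply DifferentiableOn.diffContOnCl
    rw [closure_ball z (by linarith)]
    intro w hw
    rw [mem_closedBall, dist_eq_norm] at hw
    have w1 := norm_ge_of_near (p := 0) (a := η) (by simpa using hz) hw
    have w2 := norm_le_of_near hz1 hw
    rw [sub_zero] at w1
    exact (hGd w (by linarith) (by linarith)).differentiableWithinAt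
  refine hfin.trans (le_of_eq ?_)
  ring

/-- **The variation lemma** -/
theorem variation : Variation := by
  intro η hη
  rcases lt_or_ge (1 / 2) η with h12 | h12
  · exact ⟨1, 1, one_pos, one_pos, fun β _ p hp hp1 => absurd (hp.trans hp1) (by linarith)⟩
  obtain ⟨C, t0, hC, ht0, H⟩ := variation_zero hη h12
  refine ⟨C, t0, hC, ht0, ?_⟩
  intro β h p hp hp1 τ hτ
  by_cases h0 : τ = 0
  · refine ⟨β, h, ?_⟩
    intro z _ _ _
    have h1 : (fun z => VV β p τ z - (τ.re : ℂ) * phi β z) = fun _ => 0 := by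
      funext w
      rw [h0]
      simp [VV, eps, hh]
    rw [h1, deriv_const, h0]
    simp
  · set b0 : ℂ := β 0 with hb0
    have hb1 : b0 = β 0 := hb0
    clear_value b0
    have hd : ∀ z : ℂ, deriv (fun z => β z - b0) z = deriv β z := fun z => by
      rw [deriv_sub_const]
    have hp' : ∀ z : ℂ, phi (fun z => β z - b0) z = phi β z - b0 := fun z => by
      unfold phi; ring
    have hdp : ∀ z : ℂ, dphi (fun z => β z - b0) z = dphi β z := fun z => by
      unfold dphi; rw [hd]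
    have hV' : ∀ z : ℂ, VV (fun z => β z - b0) p τ z = VV β p τ z := fun z => by
      unfold VV eps
      rw [hp', hp', hdp, hdp]
      congr 2
      ring
    have hE : Ext (fun z => β z - b0) := by
      refine ⟨h.diff.sub (differentiableOn_const _), ?_, ?_⟩
      · intro ζ ω h1 h2 h3 h4 h5
        exact h.inj ζ ω h1 h2 h3 h4 (by linear_combination h5)
      · intro ζ h1
        rw [hd]
        exact h.ne ζ h1
    obtain ⟨γ, hγ, hγ'⟩ := H (fun z => β z - b0) hE (by simp [hb1]) p hp hp1 τ h0 hτ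
    refine ⟨γ, hγ, ?_⟩
    intro z hz hz1 hzp
    have h1 := hγ' z hz hz1 hzp
    rw [hd] at h1
    have h2 : (fun z => VV (fun z => β z - b0) p τ z - (τ.re : ℂ) * phi (fun z => β z - b0) z) =
        fun z => (VV β p τ z - (τ.re : ℂ) * phi β z) + (τ.re : ℂ) * b0 := by
      funext w
      rw [hV', hp']
      ring
    rw [h2, deriv_add_const] at h1
    exact h1

end Pool.Agent.Helper5.CK
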