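import Pool.Agent.Helper39.Area.Branch
set_option autoImplicit false
open Complex Metric Set
open scoped ComplexConjugate

/-! Interior variation of univalent functions: definitions. -/

namespace Pool.Agent.Helper5.CK

open Pool.Agent.Helper39.Area

/-- the tangential vector field `z h(z)` has a simple pole at `p` and `h` is imaginary on the
unit circle -/
noncomputable def hh (p τ z : ℂ) : ℂ :=
  (1 / 2) * (τ * ((z + p) / (z - p)) - conj τ * ((1 + conj p * z) / (1 - conj p * z)))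

/-- inner map -/
noncomputable def psi (p τ z : ℂ) : ℂ := z * Complex.exp (hh p τ z)

/-- coefficient of the outer map `w ↦ w + eps / (w - phi p)` -/
noncomputable def eps (β : ℂ → ℂ) (p τ : ℂ) : ℂ := -(τ * p ^ 2 * dphi β p ^ 2)

/-- first variation -/
noncomputable def VV (β : ℂ → ℂ) (p τ z : ℂ) : ℂ :=
  eps β p τ / (phi β z - phi β p) + dphi β z * (z * hh p τ z)

/-- The variation lemma. -/
def Variation : Prop :=
  ∀ η : ℝ, 0 < η → ∃ C t0 : ℝ, 0 < C ∧ 0 < t0 ∧ ∀ β : ℂ → ℂ, Ext β → ∀ p : ℂ, η ≤ ‖p‖ → ‖p‖ ≤ 1 - η →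
    ∀ τ : ℂ, ‖τ‖ ≤ t0 → ∃ γ : ℂ → ℂ, Ext γ ∧ ∀ z : ℂ, η ≤ ‖z‖ → ‖z‖ ≤ 1 - η → η ≤ ‖z - p‖ →
      ‖deriv γ z - deriv β z - deriv (fun z => VV β p τ z - (τ.re : ℂ) * phi β z) z‖ ≤ C * ‖τ‖ ^ 2

theorem hh_smul (p B z : ℂ) (t : ℝ) : hh p (t * B) z = t * hh p B z := by
  unfold hh
  rw [map_mul, Complex.conj_ofReal]
  ring

theorem VV_smul (β : ℂ → ℂ) (p B z : ℂ) (t : ℝ) : VV β p (t * B) z = t * VV β p B z := by
  unfold VV eps
  rw [hh_smul]
  ring

end Pool.Agent.Helper5.CK
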