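import Pool.Agent.Helper5.CK.Defs
import Pool.Agent.Helper47.CMV.Maps
import Pool.Agent.Helper77.CK.Expand
import Pool.Agent.Helper81.CK.Outer
import Pool.Agent.Helper81.CK.Reg
import Pool.Agent.Helper81.CK.Normal
set_option autoImplicit false
open Complex Metric Set Filter Topology
open scoped ComplexConjugate

/-! The ingredients of the variation lemma (from the files of helpers 47, 77, 81). -/

namespace Pool.Agent.Helper5.CK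
open Pool.Agent.Helper39.Area
open Pool.Agent.Helper47.CMV (HH LL HH_nonneg LL_nonneg hh_re_abs_le psi_sub_le psi_inv_sub_ge)

theorem psi_facts {η s : ℝ} (hη : 0 < η) (hs : 0 < s) : ∃ C : ℝ, 0 < C ∧ ∀ p τ : ℂ, ‖p‖ ≤ 1 - η →
    C * ‖τ‖ ≤ 1 / 2 →
    (∀ z, ‖z‖ < 1 → s ≤ ‖z - p‖ → (1 - C * ‖τ‖) * (1 - ‖z‖ ^ 2) ≤ 1 - ‖psi p τ z‖ ^ 2 ∧
      ‖psi p τ z - z‖ ≤ C * ‖τ‖) ∧
    (∀ x y, ‖x‖ < 1 → ‖y‖ < 1 → x ≠ 0 → y ≠ 0 → s ≤ ‖x - p‖ → s ≤ ‖y - p‖ →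
      (1 - C * ‖τ‖) * ‖x⁻¹ - y⁻¹‖ ≤ ‖(psi p τ x)⁻¹ - (psi p τ y)⁻¹‖) := by
  have hH := HH_nonneg hs hη
  have hL := LL_nonneg hs hη
  have hk : 0 < 1 / (s * η) := by positivity
  refine ⟨4 * (1 / (s * η)) + (2 * HH s η + 6 * LL s η), by positivity, ?_⟩
  intro p τ hp hτ
  have ht := norm_nonneg τ
  obtain ⟨a, ha⟩ : ∃ a : ℝ, a = ‖τ‖ * HH s η := ⟨_, rfl⟩
  obtain ⟨b, hb⟩ : ∃ b : ℝ, b = ‖τ‖ * LL s η := ⟨_, rfl⟩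
  obtain ⟨k, hk'⟩ : ∃ k : ℝ, k = ‖τ‖ * (1 / (s * η)) := ⟨_, rfl⟩
  have ha0 : 0 ≤ a := by rw [ha]; positivity
  have hb0 : 0 ≤ b := by rw [hb]; positivity
  have hk0 : 0 ≤ k := by rw [hk']; positivity
  have hC : (4 * (1 / (s * η)) + (2 * HH s η + 6 * LL s η)) * ‖τ‖ = 4 * k + 2 * a + 6 * b := by
    rw [ha, hb, hk']; ring
  rw [hC] at hτ ⊢
  refine ⟨?_, ?_⟩
  · intro z hz hzp
    constructor
    · have h1 := hh_re_abs_le (τ := τ) hs hη hp hz.le hzp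
      rw [← hk'] at h1
      have hz1 : 0 ≤ 1 - ‖z‖ ^ 2 := by nlinarith [norm_nonneg z]
      have hz2 : 1 - ‖z‖ ^ 2 ≤ 1 := by nlinarith [norm_nonneg z]
      have h2 : ‖psi p τ z‖ ^ 2 = ‖z‖ ^ 2 * Real.exp (2 * (hh p τ z).re) := by
        unfold psi
        rw [norm_mul, Complex.norm_exp, mul_pow, ← Real.exp_nat_mul]
        norm_num
      obtain ⟨y, hy⟩ : ∃ y : ℝ, y = 2 * (k * (1 - ‖z‖ ^ 2)) := ⟨_, rfl⟩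
      have hy0 : 0 ≤ y := by rw [hy]; positivity
      have hy1 : y ≤ 1 := by
        rw [hy]
        nlinarith
      have h3 : Real.exp (2 * (hh p τ z).re) ≤ Real.exp y := by
        apply Real.exp_le_exp.mpr
        rw [hy]
        have := (abs_le.mp h1).2
        linarith
      have h4 : Real.exp y ≤ 1 + 2 * y := by
        have := Real.abs_exp_sub_one_sub_id_le (x := y) (by rw [abs_of_nonneg hy0]; exact hy1)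
        have h5 := (abs_le.mp this).2
        nlinarith
      have h5 : ‖z‖ ^ 2 ≤ 1 := by linarith
      have h6 : ‖psi p τ z‖ ^ 2 ≤ ‖z‖ ^ 2 * (1 + 2 * y) := by
        rw [h2]
        exact mul_le_mul_of_nonneg_left (h3.trans h4) (by positivity)
      have h7 : ‖z‖ ^ 2 * (1 + 2 * y) ≤ ‖z‖ ^ 2 + 2 * y := by nlinarith [sq_nonneg ‖z‖]
      have h8 : 2 * y = 4 * k * (1 - ‖z‖ ^ 2) := by rw [hy]; ring
      have h9 : 0 ≤ (2 * a + 6 * b) * (1 - ‖z‖ ^ 2) := by positivity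
      nlinarith
    · have h1 := psi_sub_le (τ := τ) hs hη hp hz.le hzp (by rw [← ha]; linarith)
      rw [← ha] at h1
      have h2 : 2 * a * ‖z‖ ≤ 2 * a * 1 := mul_le_mul_of_nonneg_left hz.le (by positivity)
      linarith
  · intro x y hx hy hx0 hy0 hxp hyp
    have h1 := psi_inv_sub_ge (τ := τ) hs hη hp hx.le hy.le hx0 hy0 hxp hyp
      (by rw [← ha]; linarith)
    have h2 : ‖τ‖ * (2 * HH s η + 6 * LL s η) = 2 * a + 6 * b := by rw [ha, hb]; ring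
    rw [h2] at h1
    refine le_trans ?_ h1
    apply mul_le_mul_of_nonneg_right _ (norm_nonneg _)
    linarith

theorem dphi_bd {β : ℂ → ℂ} (h : Ext β) {η : ℝ} (hη : 0 < η) {z : ℂ} (h1 : η ≤ ‖z‖)
    (h2 : ‖z‖ ≤ 1 - η) : η ≤ ‖dphi β z‖ ∧ ‖dphi β z‖ ≤ (η ^ 3)⁻¹ :=
  Pool.Agent.Helper77.CK.dphi_bounds h hη h1 h2

theorem koebe_phi {β : ℂ → ℂ} (h : Ext β) {p y : ℂ} {r : ℝ} (hr : 0 < r) (hp : r ≤ ‖p‖)
    (hp1 : r ≤ 1 - ‖p‖) (hy : y ∈ ball (0:ℂ) 1) (hy0 : y ≠ 0) (hyp : r ≤ ‖y - p‖) :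
    r * ‖dphi β p‖ ≤ 4 * ‖phi β y - phi β p‖ :=
  Pool.Agent.Helper77.CK.koebe_phi h hr hp hp1 hy hy0 hyp

theorem beta_bd {η : ℝ} (hη : 0 < η) : ∃ C : ℝ, 0 < C ∧ ∀ β : ℂ → ℂ, Ext β → β 0 = 0 → ∀ z : ℂ,
    ‖z‖ ≤ 1 - η → ‖β z‖ ≤ C := by
  obtain ⟨C, hC, H⟩ := Pool.Agent.Helper77.CK.exists_beta_le hη
  exact ⟨C, hC, fun β h h0 z hz => (H β h h0 z hz).1⟩

theorem expand {η s : ℝ} (hη : 0 < η) (hs : 0 < s) : ∃ C : ℝ, 0 < C ∧ ∀ β, Ext β → ∀ p : ℂ,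
    η ≤ ‖p‖ → ‖p‖ ≤ 1 - η → ∀ τ : ℂ, C * ‖τ‖ ≤ 1 → ∀ z : ℂ, η ≤ ‖z‖ → ‖z‖ ≤ 1 - η → s ≤ ‖z - p‖ →
    ‖VV β p τ z‖ ≤ C * ‖τ‖ ∧
    ‖phi β (psi p τ z) + eps β p τ / (phi β (psi p τ z) - phi β p) - phi β z - VV β p τ z‖ ≤
      C * ‖τ‖ ^ 2 := by
  obtain ⟨C, hC, H⟩ := Pool.Agent.Helper77.CK.expand η s hη hs
  exact ⟨C, hC, fun β h p hp hp1 τ hτ z hz hz1 hzp => (H β h p hp hp1 τ hτ z hz hz1 hzp).2⟩

theorem reg_ext {β : ℂ → ℂ} (h : Ext β) {p : ℂ} (hp : p ∈ ball (0:ℂ) 1) (hp0 : p ≠ 0) (τ : ℂ) :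
    ∃ V : ℂ → ℂ, DifferentiableOn ℂ V (ball 0 1 \ {0}) ∧
      ∀ z ∈ ball (0:ℂ) 1 \ {0}, z ≠ p → V z = VV β p τ z :=
  Pool.Agent.Helper81.CK.reg_ext h hp hp0 τ

theorem normalise {f : ℂ → ℂ} {r : ℝ} {c : ℂ} (hr : 0 < r) (hr1 : r ≤ 1)
    (hf : DifferentiableOn ℂ f (ball 0 r \ {0})) (hi : InjOn f (ball 0 r \ {0})) (hc : c ≠ 0)
    (hl : Tendsto (fun z => z * f z) (𝓝[≠] 0) (𝓝 c)) :
    ∃ γ : ℂ → ℂ, Ext γ ∧ ∀ z ∈ ball (0:ℂ) 1, z ≠ 0 → z⁻¹ + γ z = (r / c) * f (r * z) :=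
  Pool.Agent.Helper81.CK.normalise hr hr1 hf hi hc hl

end Pool.Agent.Helper5.CK
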