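import Pool.Agent.Helper5.CK.Gmap
import Pool.Agent.Helper5.CK.Facts
set_option autoImplicit false
open Complex Metric Set Filter Topology
open scoped ComplexConjugate

/-! The varied function before normalisation. -/

namespace Pool.Agent.Helper5.CK

open Pool.Agent.Helper39.Area
open Pool.Agent.Helper81.CK (outer outer_bound outer_lip regular_part)

/-- a small number under two constraints -/
theorem exists_small {A b : ℝ} (hA : 0 < A) (hb : 0 < b) : ∃ t : ℝ, 0 < t ∧ t ≤ 1 ∧ A * t ≤ b := by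
  refine ⟨min 1 (b / A), by positivity, min_le_left _ _, ?_⟩
  calc A * min 1 (b / A) ≤ A * (b / A) := mul_le_mul_of_nonneg_left (min_le_right _ _) hA.le
    _ = b := by field_simp

theorem norm_inv_sub_le {x y : ℂ} {a b : ℝ} (ha : 0 < a) (hb : 0 < b) (hx : a ≤ ‖x‖) (hy : b ≤ ‖y‖) :
    ‖x⁻¹ - y⁻¹‖ ≤ ‖x - y‖ / (a * b) := by
  have hx0 : x ≠ 0 := by
    intro h; rw [h, norm_zero] at hx; linarith
  have hy0 : y ≠ 0 := by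
    intro h; rw [h, norm_zero] at hy; linarith
  have h1 : x⁻¹ - y⁻¹ = (y - x) / (x * y) := by field_simp
  rw [h1, norm_div, norm_mul, norm_sub_rev]
  exact div_le_div_of_nonneg_left (norm_nonneg _) (by positivity) (mul_le_mul hx hy hb.le (norm_nonneg _))

theorem norm_le_inv_sub {x y : ℂ} (hx : x ≠ 0) (hy : y ≠ 0) (hx1 : ‖x‖ ≤ 1) (hy1 : ‖y‖ ≤ 1) :
    ‖x - y‖ ≤ ‖x⁻¹ - y⁻¹‖ := by
  have h1 : x - y = (y⁻¹ - x⁻¹) * (x * y) := by field_simp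
  have h2 : ‖x * y‖ ≤ 1 := by
    rw [norm_mul]
    exact mul_le_one₀ hx1 (norm_nonneg _) hy1
  rw [h1, norm_mul, norm_sub_rev]
  calc ‖x⁻¹ - y⁻¹‖ * ‖x * y‖ ≤ ‖x⁻¹ - y⁻¹‖ * 1 := mul_le_mul_of_nonneg_left h2 (norm_nonneg _)
    _ = _ := mul_one _

/-- lower bound for `gg` -/
theorem gg_lower {β : ℂ → ℂ} (h : Ext β) {p τ x y : ℂ} {r c k : ℝ} (hr : r < 1)
    (hc : 0 < c) (hk : k ≤ 1 / 2)
    (hx : ‖x‖ ≤ r) (hy : ‖y‖ ≤ r) (hx0 : x ≠ 0) (hy0 : y ≠ 0)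
    (hx2 : (1 - k) * (1 - ‖x‖ ^ 2) ≤ 1 - ‖psi p τ x‖ ^ 2)
    (hy2 : (1 - k) * (1 - ‖y‖ ^ 2) ≤ 1 - ‖psi p τ y‖ ^ 2)
    (hxy : (1 - k) * ‖x⁻¹ - y⁻¹‖ ≤ ‖(psi p τ x)⁻¹ - (psi p τ y)⁻¹‖)
    (hcx : c ≤ ‖phi β (psi p τ x) - phi β p‖) (hcy : c ≤ ‖phi β (psi p τ y) - phi β p‖)
    (he : ‖eps β p τ‖ ≤ c ^ 2 / 2) :
    (1 - r ^ 2) / 8 * ‖x - y‖ ≤ ‖gg β p τ x - gg β p τ y‖ := by
  have hr0 : 0 ≤ r := (norm_nonneg x).trans hx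
  have hr1 : 0 < 1 - r ^ 2 := by nlinarith
  have h1 := W_lower hc hcx hcy he
  set s : ℝ := Real.sqrt (1 - (1 - r ^ 2) / 2) with hs
  have hs0 : 0 ≤ 1 - (1 - r ^ 2) / 2 := by nlinarith [sq_nonneg r]
  have hs2 : s ^ 2 = 1 - (1 - r ^ 2) / 2 := Real.sq_sqrt hs0
  have hs1 : s < 1 := by
    have := Real.sqrt_nonneg (1 - (1 - r ^ 2) / 2)
    nlinarith
  have hb : ∀ z : ℂ, ‖z‖ ≤ r → (1 - k) * (1 - ‖z‖ ^ 2) ≤ 1 - ‖psi p τ z‖ ^ 2 →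
      ‖psi p τ z‖ ≤ s := by
    intro z hz hz2
    apply Real.le_sqrt_of_sq_le
    have h3 : ‖z‖ ^ 2 ≤ r ^ 2 := pow_le_pow_left₀ (norm_nonneg _) hz 2
    nlinarith
  have h2 := Pool.Agent.Helper77.CK.phi_sub_ge h (psi_ne (p := p) (τ := τ) hy0)
    (psi_ne (p := p) (τ := τ) hx0) hs1 (hb y hy hy2) (hb x hx hx2)
  have h3 := norm_le_inv_sub hx0 hy0 (hx.trans hr.le) (hy.trans hr.le)
  have h4 : ‖x - y‖ / 2 ≤ ‖(psi p τ x)⁻¹ - (psi p τ y)⁻¹‖ := by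
    refine le_trans ?_ hxy
    have := norm_nonneg (x⁻¹ - y⁻¹)
    nlinarith
  rw [hs2] at h2
  have h5 : (1 - (1 - (1 - r ^ 2) / 2)) * (‖x - y‖ / 2) ≤ ‖phi β (psi p τ x) - phi β (psi p τ y)‖ :=
    le_trans (mul_le_mul_of_nonneg_left h4 (by linarith)) h2
  unfold gg
  refine le_trans ?_ h1
  nlinarith

end Pool.Agent.Helper5.CK
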