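import Pool.Agent.Helper5.CK.Core
set_option autoImplicit false
open Complex Metric Set Filter Topology
open scoped ComplexConjugate

/-! Construction of the varied function. -/

namespace Pool.Agent.Helper5.CK

open Pool.Agent.Helper39.Area
open Pool.Agent.Helper81.CK (outer outer_bound outer_lip regular_part outer_differentiableOn)

theorem sq_le_self' {t : ℝ} (h0 : 0 ≤ t) (h1 : t ≤ 1) : t ^ 2 ≤ t := by nlinarith

theorem one_sub_sq_pos' {t : ℝ} (h0 : 0 ≤ t) (h1 : t < 1) : 0 < 1 - t ^ 2 := by nlinarith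

theorem lt_one_of_sq' {t : ℝ} (h1 : t ^ 2 < 1) : t < 1 := by nlinarith

theorem small_of {A B t u b : ℝ} (h : B * u ≤ b) (hu : t ≤ u) (hAB : A ≤ B) (ht : 0 ≤ t)
    (hB : 0 ≤ B) : A * t ≤ b :=
  (mul_le_mul hAB hu ht hB).trans h

theorem frac_bd {η s1 k k2 : ℝ} (h1 : s1 ≤ η / 512) (hk : 0 ≤ k) (h2 : k2 ≤ k) (hη : 0 < η) :
    k2 * (3 * η / 8) ≤ 2 * k * (3 * η / 8 - s1) := by nlinarith

theorem sub_sq_ge {r : ℝ} (h0 : 0 ≤ r) (h1 : r ≤ 1) : 1 - r ≤ 1 - r ^ 2 := by nlinarith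

theorem eta_aux {η : ℝ} (h0 : 0 < η) (h1 : η ≤ 1 / 2) :
    0 ≤ 1 - (1 - η / 2) ^ 2 ∧ η / 2 ≤ 1 - (1 - η / 2) ^ 2 ∧ η / 2 ≤ η - η ^ 2 / 4 := by
  refine ⟨?_, ?_, ?_⟩ <;> nlinarith

theorem contra_aux {η k : ℝ} (h0 : 0 < η) (h1 : η ≤ 1 / 2)
    (h2 : (1 - (1 - η / 2) ^ 2) * (η / 8) ≤ 3 * k) (h3 : k ≤ η ^ 2 / 2048) : False := by
  have h4 := (eta_aux h0 h1).2.1
  nlinarith

theorem eps_aux {e k c η n : ℝ} (he : e ≤ k) (hk : k ≤ c * η ^ 2 / 512) (hn : c ≤ n)
    : e ≤ η ^ 2 / 512 * n := by nlinarith [sq_nonneg η]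

theorem last_aux {C2 t A : ℝ} (h : 0 ≤ A * t ^ 2) : C2 * t ^ 2 + C2 * t ^ 2 ≤ (A + 2 * C2) * t ^ 2 := by
  nlinarith

/-- three cases of injectivity -/
theorem injOn_of_cases {F : ℂ → ℂ} {D : Set ℂ} {p : ℂ} {ra rb : ℝ} (hab : ra < rb)
    (h1 : ∀ x ∈ D, ∀ y ∈ D, ra ≤ ‖x - p‖ → ra ≤ ‖y - p‖ → F x = F y → x = y)
    (h2 : ∀ x ∈ D, ∀ y ∈ D, ‖x - p‖ ≤ rb → ‖y - p‖ ≤ rb → F x = F y → x = y)
    (h3 : ∀ x ∈ D, ∀ y ∈ D, ‖x - p‖ ≤ ra → rb ≤ ‖y - p‖ → F x ≠ F y) : InjOn F D := by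
  intro x hx y hy hxy
  rcases le_total ra ‖x - p‖ with hxa | hxa <;> rcases le_total ra ‖y - p‖ with hya | hya
  · exact h1 x hx y hy hxa hya hxy
  · rcases le_total rb ‖x - p‖ with hxb | hxb
    · exact absurd hxy.symm (h3 y hy x hx hya hxb)
    · exact h2 x hx y hy hxb (hya.trans hab.le) hxy
  · rcases le_total rb ‖y - p‖ with hyb | hyb
    · exact absurd hxy (h3 x hx y hy hxa hyb)
    · exact h2 x hx y hy (hxa.trans hab.le) hyb hxy
  · exact h2 x hx y hy (hxa.trans hab.le) (hya.trans hab.le) hxy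

theorem lower_of_near {β : ℂ → ℂ} (h : Ext β) {p τ z : ℂ} {η s k : ℝ} (hη : 0 < η)
    (hp : η ≤ ‖p‖) (hp1 : ‖p‖ ≤ 1 - η) (hs : 0 < s) (hsη : s ≤ η)
    (hz0 : z ≠ 0) (hzp : s ≤ ‖z - p‖) (h1 : ‖psi p τ z‖ < 1) (h2 : ‖psi p τ z - z‖ ≤ k)
    (hk : k ≤ s / 2) : s * η / 8 ≤ ‖phi β (psi p τ z) - phi β p‖ := by
  have h3 : s / 2 ≤ ‖psi p τ z - p‖ := by
    have h4 : ‖z - p‖ ≤ ‖psi p τ z - p‖ + ‖psi p τ z - z‖ := by
      have : z - p = (psi p τ z - p) - (psi p τ z - z) := by ring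
      rw [this]; exact norm_sub_le _ _
    linarith
  have h4 := koebe_phi h (p := p) (y := psi p τ z) (r := s / 2) (by linarith) (by linarith)
    (by linarith) (by simpa using h1) (psi_ne hz0) h3
  have h5 := (dphi_bd h hη hp hp1).1
  nlinarith

/-- the varied function before dilation -/
theorem exists_F {η : ℝ} (hη : 0 < η) (hη2 : η ≤ 1 / 2) : ∃ C t0 : ℝ, 0 < C ∧ 0 < t0 ∧
    ∀ β : ℂ → ℂ, Ext β → ∀ p : ℂ, η ≤ ‖p‖ → ‖p‖ ≤ 1 - η → ∀ τ : ℂ, τ ≠ 0 → ‖τ‖ ≤ t0 →
    ∃ (F : ℂ → ℂ) (r : ℝ), 0 < r ∧ r < 1 ∧ 1 - r ≤ C * ‖τ‖ ^ 2 ∧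
      DifferentiableOn ℂ F (ball 0 1 \ {0}) ∧ InjOn F (ball 0 r \ {0}) ∧
      Tendsto (fun z => z * F z) (𝓝[≠] 0) (𝓝 (Real.exp τ.re : ℂ)) ∧
      ∀ z, η / 4 ≤ ‖z‖ → ‖z‖ ≤ 1 - η / 4 → η / 4 ≤ ‖z - p‖ →
        ‖F z - phi β z - VV β p τ z‖ ≤ C * ‖τ‖ ^ 2 := by
  obtain ⟨sa, hsa⟩ : ∃ sa : ℝ, sa = η ^ 5 / 256 := ⟨_, rfl⟩
  have hsa0 : 0 < sa := by rw [hsa]; positivity
  have hη5 : η ^ 5 ≤ η := by
    have : η ^ 5 ≤ η ^ 1 := pow_le_pow_of_le_one hη.le (by linarith) (by norm_num)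
    simpa using this
  have hsa1 : sa ≤ η / 256 := by rw [hsa]; linarith
  obtain ⟨s1, hs1⟩ : ∃ s1 : ℝ, s1 = sa / 2 := ⟨_, rfl⟩
  obtain ⟨s0, hs0⟩ : ∃ s0 : ℝ, s0 = sa / 4 := ⟨_, rfl⟩
  have hs1p : 0 < s1 := by linarith
  have hs0p : 0 < s0 := by linarith
  obtain ⟨C1, hC1, H1⟩ := psi_facts hη hs0p
  obtain ⟨C2, hC2, H2⟩ := expand (η := η / 4) (s := s0) (by linarith) hs0p
  obtain ⟨c, hc⟩ : ∃ c : ℝ, c = s0 * η / 8 := ⟨_, rfl⟩
  have hc0 : 0 < c := by rw [hc]; positivity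
  obtain ⟨E1, hE1⟩ : ∃ E1 : ℝ, E1 = ((η ^ 3)⁻¹) ^ 2 := ⟨_, rfl⟩
  have hE1p : 0 < E1 := by rw [hE1]; positivity
  -- the small parameter
  obtain ⟨b, hb0, hb1, hb2, hb3, hb4, hb5⟩ : ∃ b : ℝ, 0 < b ∧ b ≤ s0 / 2 ∧ b ≤ c ^ 2 / 2 ∧
      b ≤ s1 / 64 ∧ b ≤ η ^ 2 / 2048 ∧ b ≤ c * η ^ 2 / 512 := by
    refine ⟨min (s0 / 2) (min (c ^ 2 / 2) (min (s1 / 64) (min (η ^ 2 / 2048) (c * η ^ 2 / 512)))),
      by positivity, ?_, ?_, ?_, ?_, ?_⟩
    · exact min_le_left _ _
    · exact (min_le_right _ _).trans (min_le_left _ _)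
    · exact (min_le_right _ _).trans ((min_le_right _ _).trans (min_le_left _ _))
    · exact (min_le_right _ _).trans ((min_le_right _ _).trans ((min_le_right _ _).trans
        (min_le_left _ _)))
    · exact (min_le_right _ _).trans ((min_le_right _ _).trans ((min_le_right _ _).trans
        (min_le_right _ _)))
  obtain ⟨t0, ht0, ht1, ht2⟩ := exists_small (A := C1 + C2 + E1) (b := b) (by positivity) hb0
  refine ⟨16 * C2 / s1 + 2 * C2, t0, by positivity, ht0, ?_⟩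
  intro β h p hp hp1 τ hτ hτt
  have hτp : 0 < ‖τ‖ := norm_pos_iff.mpr hτ
  have hτ1 : ‖τ‖ ≤ 1 := hτt.trans ht1
  have hC1τ : C1 * ‖τ‖ ≤ b :=
    small_of ht2 hτt (by linarith only [hC2, hE1p]) (norm_nonneg _) (by positivity)
  have hC2τ : C2 * ‖τ‖ ≤ b :=
    small_of ht2 hτt (by linarith only [hC1, hE1p]) (norm_nonneg _) (by positivity)
  have hE1τ : E1 * ‖τ‖ ≤ b :=
    small_of ht2 hτt (by linarith only [hC1, hC2]) (norm_nonneg _) (by positivity)
  have hs0η : s0 ≤ η := by linarith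
  have hp1' : ‖p‖ < 1 := by linarith
  have hp0 : p ≠ 0 := by
    intro h0; rw [h0, norm_zero] at hp; linarith
  have hη2' : η ^ 2 ≤ 1 := pow_le_one₀ hη.le (by linarith only [hη2])
  have hC1k : C1 * ‖τ‖ ≤ 1 / 2 := by linarith
  obtain ⟨H1a, H1b⟩ := H1 p τ hp1 hC1k
  have hC2k : C2 * ‖τ‖ ≤ 1 := by linarith
  have he : ‖eps β p τ‖ ≤ E1 * ‖τ‖ := by
    rw [hE1]; exact eps_norm hp1'.le (dphi_bd h hη hp hp1).2
  have hψ1 : ∀ z : ℂ, ‖z‖ < 1 → s0 ≤ ‖z - p‖ → ‖psi p τ z‖ < 1 := by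
    intro z hz hzp
    have h1 := (H1a z hz hzp).1
    have h2 : 0 < 1 - ‖z‖ ^ 2 := one_sub_sq_pos' (norm_nonneg z) hz
    have h3 : 0 < (1 - C1 * ‖τ‖) * (1 - ‖z‖ ^ 2) := mul_pos (by linarith) h2
    have h4 : ‖psi p τ z‖ ^ 2 < 1 := by linarith
    exact lt_one_of_sq' h4
  have hlow : ∀ z : ℂ, ‖z‖ < 1 → z ≠ 0 → s0 ≤ ‖z - p‖ →
      c ≤ ‖phi β (psi p τ z) - phi β p‖ := by
    intro z hz hz0 hzp
    rw [hc]
    exact lower_of_near h hη hp hp1 hs0p hs0η hz0 hzp (hψ1 z hz hzp) (H1a z hz hzp).2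
      (by linarith)
  have hlow2 : ∀ z : ℂ, ‖z‖ < 1 → z ≠ 0 → η / 4 ≤ ‖z - p‖ →
      η ^ 2 / 32 ≤ ‖phi β (psi p τ z) - phi β p‖ := by
    intro z hz hz0 hzp
    have h1 := lower_of_near h hη hp hp1 (s := η / 4) (by linarith) (by linarith) hz0 hzp
      (hψ1 z hz (by linarith)) (H1a z hz (by linarith)).2 (by linarith)
    linarith
  -- regular part of the variation
  have hpb : p ∈ ball (0:ℂ) 1 := by simpa using hp1'
  obtain ⟨V, hVd, hV⟩ := reg_ext h hpb hp0 τ
  set D : Set ℂ := ball (0:ℂ) 1 \ {0} with hD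
  have hDo : IsOpen D := isOpen_ball.sdiff isClosed_singleton
  have hcb : ∀ z : ℂ, ‖z - p‖ ≤ η / 2 → η / 2 ≤ ‖z‖ ∧ ‖z‖ ≤ 1 - η / 2 := by
    intro z hz
    have h1 : ‖p‖ ≤ ‖z‖ + ‖z - p‖ := by
      have : p = z - (z - p) := by ring
      calc ‖p‖ = ‖z - (z - p)‖ := by rw [← this]
        _ ≤ _ := norm_sub_le _ _
    have h2 : ‖z‖ ≤ ‖p‖ + ‖z - p‖ := by
      have : z = p + (z - p) := by ring
      calc ‖z‖ = ‖p + (z - p)‖ := by rw [← this]
        _ ≤ _ := norm_add_le _ _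
    constructor <;> linarith
  have hcbD : closedBall p (η / 2) ⊆ D := by
    intro z hz
    rw [mem_closedBall, dist_eq_norm] at hz
    have h1 := hcb z hz
    refine ⟨by rw [mem_ball, dist_zero_right]; linarith, ?_⟩
    rintro (rfl : z = 0)
    rw [norm_zero] at h1; linarith
  set P : ℂ → ℂ := fun z => phi β z + V z with hP
  have hφd : DifferentiableOn ℂ (phi β) D := by
    rintro z ⟨hz, hz0⟩
    exact (hasDerivAt_phi h.diff hz hz0).differentiableAt.differentiableWithinAt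
  have hPd : DifferentiableOn ℂ P D := hφd.add hVd
  have hDn : ∀ z ∈ D, ‖z‖ < 1 ∧ z ≠ 0 := by
    rintro z ⟨hz, hz0⟩
    exact ⟨by simpa using hz, hz0⟩
  have hgd' : ∀ z, ‖z‖ < 1 → z ≠ 0 → s0 < ‖z - p‖ → DifferentiableAt ℂ (gg β p τ) z := by
    intro z hz hz0 hzp
    have hzne : z ≠ p := by
      rintro rfl; rw [sub_self, norm_zero] at hzp; linarith
    refine gg_diff h hp1' hz hz0 hzne (hψ1 z hz hzp.le) ?_
    intro h0
    have := hlow z hz hz0 hzp.le
    rw [h0, norm_zero] at this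
    linarith
  have hgd : DifferentiableOn ℂ (gg β p τ) (D \ closedBall p s0) := by
    rintro z ⟨hz, hzp⟩
    rw [mem_closedBall, dist_eq_norm, not_le] at hzp
    exact (hgd' z (hDn z hz).1 (hDn z hz).2 hzp).differentiableWithinAt
  have hVeq : ∀ z ∈ D, s0 ≤ ‖z - p‖ → V z = VV β p τ z := by
    intro z hz hzp
    refine hV z hz ?_
    rintro rfl; rw [sub_self, norm_zero] at hzp; linarith
  have hG : ∀ z, η / 4 ≤ ‖z‖ → ‖z‖ ≤ 1 - η / 4 → s0 ≤ ‖z - p‖ →
      ‖gg β p τ z - P z‖ ≤ C2 * ‖τ‖ ^ 2 := by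
    intro z hz1 hz2 hzp
    have hzD : z ∈ D := by
      refine ⟨by rw [mem_ball, dist_zero_right]; linarith, ?_⟩
      rintro (rfl : z = 0)
      rw [norm_zero] at hz1; linarith
    have h1 := (H2 β h p (by linarith) (by linarith) τ hC2k z hz1 hz2 hzp).2
    rw [hP]
    simp only
    rw [hVeq z hzD hzp]
    have : gg β p τ z - (phi β z + VV β p τ z) =
        phi β (psi p τ z) + eps β p τ / (phi β (psi p τ z) - phi β p) - phi β z - VV β p τ z := by
      unfold gg; ring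
    rw [this]
    exact h1
  have hann : ∀ s : ℂ, s1 ≤ ‖s - p‖ → ‖s - p‖ ≤ η / 2 → ‖gg β p τ s - P s‖ ≤ C2 * ‖τ‖ ^ 2 := by
    intro s hs hs'
    have h1 := hcb s hs'
    exact hG s (by linarith) (by linarith) (by linarith)
  obtain ⟨F, hFd, hFeq, hFP⟩ := regular_part hDo hs1p (by linarith : s0 < s1)
    (by linarith : s1 < η / 2) hcbD hgd hPd hann
  set e : ℂ → ℂ := fun s => gg β p τ s - P s with he'
  have hec : ContinuousOn e (sphere p s1) := by
    intro s hs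
    rw [mem_sphere, dist_eq_norm] at hs
    have h1 : s ∈ D := hcbD (by rw [mem_closedBall, dist_eq_norm]; linarith)
    have h2 := (hgd' s (hDn s h1).1 (hDn s h1).2 (by linarith)).continuousAt
    have h3 := (hPd.differentiableAt (hDo.mem_nhds h1)).continuousAt
    exact (h2.sub h3).continuousWithinAt
  have heb : ∀ s ∈ sphere p s1, ‖e s‖ ≤ C2 * ‖τ‖ ^ 2 := by
    intro s hs
    rw [mem_sphere, dist_eq_norm] at hs
    exact hann s hs.ge (by linarith)
  have hE : ∀ z, sa ≤ ‖z - p‖ → ‖outer p s1 e z‖ ≤ C2 * ‖τ‖ ^ 2 := by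
    intro z hz
    have h1 := outer_bound hs1p heb (z := z) (d := s1) hs1p (by linarith)
    have h2 : s1 * (C2 * ‖τ‖ ^ 2) / s1 = C2 * ‖τ‖ ^ 2 := by field_simp
    rwa [h2] at h1
  have hEl : ∀ z w, sa ≤ ‖z - p‖ → sa ≤ ‖w - p‖ →
      ‖outer p s1 e z - outer p s1 e w‖ ≤ C2 * ‖τ‖ ^ 2 / s1 * ‖z - w‖ := by
    intro z w hz hw
    have h1 := outer_lip hs1p hec heb (z := z) (w := w) (d := s1) hs1p (by linarith) (by linarith)
    have h2 : s1 * (C2 * ‖τ‖ ^ 2) / s1 ^ 2 = C2 * ‖τ‖ ^ 2 / s1 := by field_simp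
    rwa [h2] at h1
  -- the bound inside
  have hVb : ∀ z ∈ closedBall p (η / 2), ‖V z‖ ≤ C2 * ‖τ‖ := by
    have hfr : ∀ z ∈ frontier (ball p (η / 2)), ‖V z‖ ≤ C2 * ‖τ‖ := by
      intro z hz
      rw [frontier_ball p (by linarith)] at hz
      rw [mem_sphere, dist_eq_norm] at hz
      have h1 := hcb z hz.le
      have h2 : z ∈ D := hcbD (by rw [mem_closedBall, dist_eq_norm]; linarith)
      rw [hVeq z h2 (by linarith)]
      exact (H2 β h p (by linarith) (by linarith) τ hC2k z (by linarith) (by linarith)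
        (by linarith)).1
    intro z hz
    have hcl : closure (ball p (η / 2)) = closedBall p (η / 2) := closure_ball p (by linarith)
    apply Complex.norm_le_of_forall_mem_frontier_norm_le isBounded_ball _ hfr
    · rw [hcl]; exact hz
    · apply DifferentiableOn.diffContOnCl
      rw [hcl]
      exact hVd.mono hcbD
  have hFφ : ∀ z ∈ closedBall p (3 * η / 8), ‖F z - phi β z‖ ≤ 3 * (C2 * ‖τ‖) := by
    intro z hz
    have h1 := hFP (3 * η / 8) (by linarith) (by linarith) z hz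
    have h2 := hVb z (closedBall_subset_closedBall (by linarith) hz)
    have h3 : C2 * ‖τ‖ ^ 2 * (3 * η / 8) / (3 * η / 8 - s1) ≤ 2 * (C2 * ‖τ‖) := by
      rw [div_le_iff₀ (by linarith)]
      have h4 : C2 * ‖τ‖ ^ 2 ≤ C2 * ‖τ‖ := by
        have : ‖τ‖ ^ 2 ≤ ‖τ‖ := sq_le_self' (norm_nonneg _) hτ1
        exact mul_le_mul_of_nonneg_left this hC2.le
      have h5 : 0 ≤ C2 * ‖τ‖ := by positivity
      exact frac_bd (by linarith only [hs1, hsa1]) h5 h4 hη
    have h4 : F z - phi β z = (F z - P z) + V z := by rw [hP]; ring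
    rw [h4]
    refine (norm_add_le _ _).trans ?_
    linarith
  have hQd : DifferentiableOn ℂ (fun z => F z - phi β z) D := hFd.sub hφd
  -- the dilation factor
  obtain ⟨r, hr⟩ : ∃ r : ℝ, r = 1 - 16 * (C2 * ‖τ‖ ^ 2 / s1) := ⟨_, rfl⟩
  have hq0 : 0 < C2 * ‖τ‖ ^ 2 / s1 := by positivity
  have hq1 : C2 * ‖τ‖ ^ 2 / s1 ≤ 1 / 64 := by
    rw [div_le_iff₀ hs1p]
    have h4 : C2 * ‖τ‖ ^ 2 ≤ C2 * ‖τ‖ := by
      have : ‖τ‖ ^ 2 ≤ ‖τ‖ := sq_le_self' (norm_nonneg _) hτ1
      exact mul_le_mul_of_nonneg_left this hC2.le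
    linarith
  have hr0 : 0 < r := by rw [hr]; linarith
  have hr1 : r < 1 := by rw [hr]; linarith
  refine ⟨F, r, hr0, hr1, ?_, hFd, ?_, ?_, ?_⟩
  · rw [hr]
    have h1 : 0 ≤ 2 * C2 * ‖τ‖ ^ 2 := by positivity
    have h2 : 16 * (C2 * ‖τ‖ ^ 2 / s1) = 16 * C2 / s1 * ‖τ‖ ^ 2 := by ring
    linarith
  · -- injectivity
    have hsub : ball (0:ℂ) r \ {0} ⊆ D := sdiff_subset_sdiff_left (ball_subset_ball hr1.le)
    have hn : ∀ x ∈ ball (0:ℂ) r \ {0}, ‖x‖ < r ∧ x ≠ 0 := by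
      rintro x ⟨hx, hx0⟩
      exact ⟨by simpa using hx, hx0⟩
    apply injOn_of_cases (p := p) (ra := sa) (rb := η / 4) (by linarith)
    · intro x hx y hy hxp hyp hxy
      by_contra hne
      obtain ⟨hx1, hx0⟩ := hn x hx
      obtain ⟨hy1, hy0⟩ := hn y hy
      have hxp0 : s0 ≤ ‖x - p‖ := by linarith
      have hyp0 : s0 ≤ ‖y - p‖ := by linarith
      have g1 := gg_lower h (r := r) (c := c) (k := C1 * ‖τ‖) hr1 hc0 hC1k hx1.le hy1.le
        hx0 hy0 (H1a x (by linarith) hxp0).1 (H1a y (by linarith) hyp0).1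
        (H1b x y (by linarith) (by linarith) hx0 hy0 hxp0 hyp0)
        (hlow x (by linarith) hx0 hxp0) (hlow y (by linarith) hy0 hyp0) (by linarith)
      have g2 := hEl x y hxp hyp
      rw [hFeq x (by linarith), hFeq y (by linarith)] at hxy
      have g3 : gg β p τ x - gg β p τ y = outer p s1 e x - outer p s1 e y := by
        linear_combination hxy
      rw [g3] at g1
      have g4 : 0 < ‖x - y‖ := norm_pos_iff.mpr (sub_ne_zero.mpr hne)
      have g5 : (1 - r ^ 2) / 8 * ‖x - y‖ ≤ C2 * ‖τ‖ ^ 2 / s1 * ‖x - y‖ := g1.trans g2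
      have g6 : (1 - r ^ 2) / 8 ≤ C2 * ‖τ‖ ^ 2 / s1 := le_of_mul_le_mul_right g5 g4
      have g7 : 1 - r ≤ 1 - r ^ 2 := sub_sq_ge hr0.le hr1.le
      rw [hr] at g7
      rw [hr] at g6
      linarith
    · intro x hx y hy hxp hyp hxy
      by_contra hne
      have hx1 := hcb x (by linarith)
      have hy1 := hcb y (by linarith)
      have hx0 := (hn x hx).2
      have hy0 := (hn y hy).2
      have g1 := Pool.Agent.Helper77.CK.phi_sub_ge h hx0 hy0 (s := 1 - η / 2) (by linarith)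
        hx1.2 hy1.2
      have g2 := norm_le_inv_sub hy0 hx0 (by linarith : ‖y‖ ≤ 1) (by linarith : ‖x‖ ≤ 1)
      have g3 : ‖(fun z => F z - phi β z) x - (fun z => F z - phi β z) y‖ ≤
          3 * (C2 * ‖τ‖) / (η / 8) * ‖x - y‖ := by
        refine Convex.norm_image_sub_le_of_norm_deriv_le (f := fun z => F z - phi β z)
          (s := closedBall p (η / 4)) ?_ ?_ (convex_closedBall p (η / 4)) ?_ ?_
        · intro z hz
          rw [mem_closedBall, dist_eq_norm] at hz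
          exact hQd.differentiableAt (hDo.mem_nhds (hcbD (by
            rw [mem_closedBall, dist_eq_norm]; linarith)))
        · intro z hz
          rw [mem_closedBall, dist_eq_norm] at hz
          apply Complex.norm_deriv_le_of_forall_mem_sphere_norm_le (by linarith)
          · apply DifferentiableOn.diffContOnCl
            rw [closure_ball z (by linarith)]
            apply hQd.mono
            intro w hw
            rw [mem_closedBall, dist_eq_norm] at hw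
            apply hcbD
            rw [mem_closedBall, dist_eq_norm]
            have : w - p = (w - z) + (z - p) := by ring
            rw [this]
            exact (norm_add_le _ _).trans (by linarith)
          · intro w hw
            rw [mem_sphere, dist_eq_norm] at hw
            apply hFφ
            rw [mem_closedBall, dist_eq_norm]
            have : w - p = (w - z) + (z - p) := by ring
            rw [this]
            exact (norm_add_le _ _).trans (by linarith)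
        · rw [mem_closedBall, dist_eq_norm]; exact hyp
        · rw [mem_closedBall, dist_eq_norm]; exact hxp
      have g4 : (fun z => F z - phi β z) x - (fun z => F z - phi β z) y = phi β y - phi β x := by
        simp only
        linear_combination hxy
      rw [g4] at g3
      have g5 : 0 < ‖x - y‖ := norm_pos_iff.mpr (sub_ne_zero.mpr hne)
      rw [norm_sub_rev y x] at g2
      have g6 : (1 - (1 - η / 2) ^ 2) * ‖x - y‖ ≤ 3 * (C2 * ‖τ‖) / (η / 8) * ‖x - y‖ := by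
        refine le_trans ?_ (g1.trans g3)
        exact mul_le_mul_of_nonneg_left g2 (eta_aux hη hη2).1
      have g7 := le_of_mul_le_mul_right g6 g5
      rw [le_div_iff₀ (by linarith)] at g7
      exact contra_aux hη hη2 g7 (hC2τ.trans hb4)
    · intro x hx y hy hxp hyp hxy
      have hx1 := hcb x (by linarith)
      obtain ⟨hy1, hy0⟩ := hn y hy
      have hx0 := (hn x hx).2
      have g1 := hFφ x (by rw [mem_closedBall, dist_eq_norm]; linarith)
      have g2 := Pool.Agent.Helper77.CK.phi_sub_le h hp0 hx0 (s := 1 - η / 2) (by linarith)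
        (by linarith) hx1.2
      have g3 := norm_inv_sub_le (x := x) (y := p) (a := η / 2) (b := η) (by linarith) hη hx1.1 hp
      have g4 : ‖phi β x - phi β p‖ ≤ η ^ 2 / 64 := by
        have k1 : 1 - (1 - η / 2) ^ 2 = η - η ^ 2 / 4 := by ring
        have k2 : η / 2 ≤ η - η ^ 2 / 4 := (eta_aux hη hη2).2.2
        have k3 : ‖x⁻¹ - p⁻¹‖ ≤ sa / (η / 2 * η) :=
          g3.trans (div_le_div_of_nonneg_right hxp (by positivity))
        calc ‖phi β x - phi β p‖ ≤ ‖x⁻¹ - p⁻¹‖ / (1 - (1 - η / 2) ^ 2) := g2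
          _ ≤ (sa / (η / 2 * η)) / (η / 2) := by
              rw [k1]
              exact div_le_div₀ (by positivity) k3 (by linarith) k2
          _ = η ^ 2 / 64 := by rw [hsa]; field_simp; norm_num
      have g5 : ‖F x - phi β p‖ ≤ η ^ 2 / 64 + 3 * (C2 * ‖τ‖) := by
        have : F x - phi β p = (F x - phi β x) + (phi β x - phi β p) := by ring
        rw [this]
        exact (norm_add_le _ _).trans (by linarith)
      have hl1 := hlow y (by linarith) hy0 (by linarith)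
      have hl2 := hlow2 y (by linarith) hy0 hyp
      have g6 : ‖eps β p τ / (phi β (psi p τ y) - phi β p)‖ ≤ η ^ 2 / 512 := by
        rw [norm_div, div_le_iff₀ (by linarith)]
        exact eps_aux (he.trans hE1τ) hb5 hl1
      have g7 := hE y (by linarith)
      have g8 : F y = gg β p τ y - outer p s1 e y := hFeq y (by linarith)
      have g9 : phi β (psi p τ y) - phi β p = (F y - phi β p) + outer p s1 e y -
          eps β p τ / (phi β (psi p τ y) - phi β p) := by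
        rw [g8]; unfold gg; ring
      have g10 : ‖phi β (psi p τ y) - phi β p‖ ≤ ‖F y - phi β p‖ + ‖outer p s1 e y‖ +
          ‖eps β p τ / (phi β (psi p τ y) - phi β p)‖ := by
        calc ‖phi β (psi p τ y) - phi β p‖ = ‖(F y - phi β p) + outer p s1 e y -
              eps β p τ / (phi β (psi p τ y) - phi β p)‖ := by rw [← g9]
          _ ≤ _ := (norm_sub_le _ _).trans (by gcongr; exact norm_add_le _ _)
      rw [← hxy] at g10
      have h4 : C2 * ‖τ‖ ^ 2 ≤ C2 * ‖τ‖ := by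
        have : ‖τ‖ ^ 2 ≤ ‖τ‖ := sq_le_self' (norm_nonneg _) hτ1
        exact mul_le_mul_of_nonneg_left this hC2.le
      have h5 : 0 < η ^ 2 := by positivity
      linarith
  · -- the pole
    have h1 := gg_lim h (τ := τ) hp1' hp0 hc0 (by
      have : ball (0:ℂ) (η / 2) \ {0} ∈ 𝓝[≠] (0:ℂ) := by
        rw [sdiff_eq, inter_comm]
        exact inter_mem self_mem_nhdsWithin (mem_nhdsWithin_of_mem_nhds
          (ball_mem_nhds 0 (by linarith)))
      filter_upwards [this] with z hz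
      have hz1 : ‖z‖ < η / 2 := by simpa using hz.1
      have hz0 : z ≠ 0 := hz.2
      have hzp : η / 2 ≤ ‖z - p‖ := by
        have := norm_sub_norm_le p z
        rw [norm_sub_rev] at this
        linarith
      exact hlow z (by linarith) hz0 (by linarith))
    have h2 : Tendsto (fun z => z * outer p s1 e z) (𝓝[≠] 0) (𝓝 0) := by
      have h3 : ContinuousAt (outer p s1 e) 0 := by
        have h4 : (0:ℂ) ∈ (closedBall p s1)ᶜ := by
          rw [mem_compl_iff, mem_closedBall, dist_zero_left, not_le]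
          linarith
        exact ((outer_differentiableOn hs1p hec).differentiableAt
          (isClosed_closedBall.isOpen_compl.mem_nhds h4)).continuousAt
      have h4 : ContinuousAt (fun z => z * outer p s1 e z) 0 := continuousAt_id.mul h3
      have h5 := h4.tendsto.mono_left (nhdsWithin_le_nhds (s := {0}ᶜ))
      simpa using h5
    have h3 := h1.sub h2
    rw [sub_zero] at h3
    apply h3.congr'
    have : ball (0:ℂ) (η / 2) ∈ 𝓝[≠] (0:ℂ) :=
      mem_nhdsWithin_of_mem_nhds (ball_mem_nhds 0 (by linarith))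
    filter_upwards [this] with z hz
    have hz1 : ‖z‖ < η / 2 := by simpa using hz
    have hzp : η / 2 ≤ ‖z - p‖ := by
      have := norm_sub_norm_le p z
      rw [norm_sub_rev] at this
      linarith
    rw [hFeq z (by linarith)]
    ring
  · -- expansion
    intro z hz1 hz2 hzp
    have hzD : z ∈ D := by
      refine ⟨by rw [mem_ball, dist_zero_right]; linarith, ?_⟩
      rintro (rfl : z = 0)
      rw [norm_zero] at hz1; linarith
    have h1 := hG z hz1 hz2 (by linarith)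
    have h2 := hE z (by linarith)
    have h3 : F z - phi β z - VV β p τ z = (gg β p τ z - P z) - outer p s1 e z := by
      rw [hFeq z (by linarith), hP]
      simp only
      rw [hVeq z hzD (by linarith)]
      ring
    rw [h3]
    refine (norm_sub_le _ _).trans ?_
    have h4 : 0 ≤ 16 * C2 / s1 * ‖τ‖ ^ 2 := by positivity
    exact (add_le_add h1 h2).trans (last_aux h4)

end Pool.Agent.Helper5.CK
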