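import Pool.Agent.Helper5.CK.Defs
set_option autoImplicit false
open Complex Metric Set Filter Topology
open scoped ComplexConjugate

/-! The map `W ∘ phi ∘ psi`. -/

namespace Pool.Agent.Helper5.CK

open Pool.Agent.Helper39.Area

/-- the map `W ∘ phi ∘ psi` -/
noncomputable def gg (β : ℂ → ℂ) (p τ z : ℂ) : ℂ :=
  phi β (psi p τ z) + eps β p τ / (phi β (psi p τ z) - phi β p)

theorem psi_ne {p τ z : ℂ} (hz : z ≠ 0) : psi p τ z ≠ 0 :=
  mul_ne_zero hz (Complex.exp_ne_zero _)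

theorem one_sub_ne {p z : ℂ} (hp : ‖p‖ < 1) (hz : ‖z‖ < 1) : 1 - conj p * z ≠ 0 := by
  intro h
  have h1 : conj p * z = 1 := (sub_eq_zero.mp h).symm
  have h2 : ‖conj p * z‖ = 1 := by rw [h1, norm_one]
  rw [norm_mul, RCLike.norm_conj] at h2
  nlinarith [norm_nonneg p, norm_nonneg z]

theorem hh_diff {p τ z : ℂ} (hp : ‖p‖ < 1) (hz : ‖z‖ < 1) (hzp : z ≠ p) :
    DifferentiableAt ℂ (hh p τ) z := by
  have h1 : z - p ≠ 0 := sub_ne_zero.mpr hzp
  have h2 := one_sub_ne hp hz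
  unfold hh
  fun_prop (disch := assumption)

theorem psi_diff {p τ z : ℂ} (hp : ‖p‖ < 1) (hz : ‖z‖ < 1) (hzp : z ≠ p) :
    DifferentiableAt ℂ (psi p τ) z := by
  have h1 := hh_diff (τ := τ) hp hz hzp
  unfold psi
  exact differentiableAt_id.mul h1.cexp

theorem gg_diff {β : ℂ → ℂ} (h : Ext β) {p τ z : ℂ} (hp : ‖p‖ < 1) (hz : ‖z‖ < 1) (hz0 : z ≠ 0)
    (hzp : z ≠ p) (h1 : ‖psi p τ z‖ < 1) (h2 : phi β (psi p τ z) - phi β p ≠ 0) :
    DifferentiableAt ℂ (gg β p τ) z := by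
  have h3 := psi_diff (τ := τ) hp hz hzp
  have h4 : DifferentiableAt ℂ (phi β) (psi p τ z) :=
    (hasDerivAt_phi h.diff (by simpa using h1) (psi_ne hz0)).differentiableAt
  have h5 : DifferentiableAt ℂ (fun z => phi β (psi p τ z)) z := h4.comp z h3
  unfold gg
  exact h5.add ((differentiableAt_const _).div (h5.sub (differentiableAt_const _)) h2)

theorem W_lower {a b w e : ℂ} {c : ℝ} (hc : 0 < c) (ha : c ≤ ‖a - w‖) (hb : c ≤ ‖b - w‖)
    (he : ‖e‖ ≤ c ^ 2 / 2) : ‖a - b‖ / 2 ≤ ‖(a + e / (a - w)) - (b + e / (b - w))‖ := by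
  have ha0 : a - w ≠ 0 := by
    intro h; rw [h, norm_zero] at ha; linarith
  have hb0 : b - w ≠ 0 := by
    intro h; rw [h, norm_zero] at hb; linarith
  have h1 : (a + e / (a - w)) - (b + e / (b - w)) = (a - b) * (1 - e / ((a - w) * (b - w))) := by
    field_simp
    ring
  rw [h1, norm_mul, div_eq_mul_inv]
  apply mul_le_mul_of_nonneg_left _ (norm_nonneg _)
  have h2 : ‖e / ((a - w) * (b - w))‖ ≤ 1 / 2 := by
    rw [norm_div, norm_mul, div_le_iff₀ (by positivity)]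
    have : c ^ 2 ≤ ‖a - w‖ * ‖b - w‖ := by
      rw [pow_two]; exact mul_le_mul ha hb hc.le (norm_nonneg _)
    linarith
  have h3 := norm_sub_norm_le (1:ℂ) (e / ((a - w) * (b - w)))
  rw [norm_one] at h3
  norm_num
  linarith

theorem hh_zero (p τ : ℂ) (hp : p ≠ 0) : hh p τ 0 = -(τ.re : ℂ) := by
  have h1 : (τ.re : ℂ) = (τ + conj τ) / 2 := by
    rw [Complex.add_conj]; push_cast; ring
  unfold hh
  rw [h1]
  simp only [zero_add, zero_sub, mul_zero, add_zero, sub_zero, div_one, mul_one]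
  rw [div_neg, div_self hp]
  ring

theorem eps_norm {β : ℂ → ℂ} {p τ : ℂ} {M : ℝ} (hp : ‖p‖ ≤ 1) (h : ‖dphi β p‖ ≤ M) :
    ‖eps β p τ‖ ≤ M ^ 2 * ‖τ‖ := by
  unfold eps
  rw [norm_neg, norm_mul, norm_mul, norm_pow, norm_pow]
  have h1 : ‖dphi β p‖ ^ 2 ≤ M ^ 2 := pow_le_pow_left₀ (norm_nonneg _) h 2
  have h2 : ‖p‖ ^ 2 ≤ 1 := pow_le_one₀ (norm_nonneg _) hp
  calc ‖τ‖ * ‖p‖ ^ 2 * ‖dphi β p‖ ^ 2 ≤ ‖τ‖ * 1 * M ^ 2 := by
        apply mul_le_mul _ h1 (by positivity) (by positivity)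
        exact mul_le_mul_of_nonneg_left h2 (norm_nonneg _)
    _ = M ^ 2 * ‖τ‖ := by ring

/-- the pole of `gg` at the origin -/
theorem gg_lim {β : ℂ → ℂ} (h : Ext β) {p τ : ℂ} (hp : ‖p‖ < 1) (hp0 : p ≠ 0) {c : ℝ} (hc : 0 < c)
    (hb : ∀ᶠ z in 𝓝[≠] (0:ℂ), c ≤ ‖phi β (psi p τ z) - phi β p‖) :
    Tendsto (fun z => z * gg β p τ z) (𝓝[≠] 0) (𝓝 (Real.exp τ.re : ℂ)) := by
  have h0 : ‖(0:ℂ)‖ < 1 := by simp
  have hψ : ContinuousAt (psi p τ) 0 := (psi_diff (τ := τ) hp h0 (Ne.symm hp0)).continuousAt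
  have hψ0 : psi p τ 0 = 0 := by simp [psi]
  have hβ : ContinuousAt β (psi p τ 0) := by
    rw [hψ0]
    exact (h.diff.differentiableAt (ball_mem_nhds 0 one_pos)).continuousAt
  have hβψ : ContinuousAt (fun z => β (psi p τ z)) 0 := hβ.comp hψ
  have hh1 : ContinuousAt (fun z => Complex.exp (-hh p τ z)) 0 := by
    have := (hh_diff (τ := τ) hp h0 (Ne.symm hp0)).continuousAt
    exact this.neg.cexp
  have h1 : Tendsto (fun z => Complex.exp (-hh p τ z) + z * β (psi p τ z)) (𝓝[≠] 0)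
      (𝓝 (Real.exp τ.re : ℂ)) := by
    have h2 : ContinuousAt (fun z => Complex.exp (-hh p τ z) + z * β (psi p τ z)) 0 :=
      hh1.add (continuousAt_id.mul hβψ)
    have h3 := h2.tendsto.mono_left (nhdsWithin_le_nhds (s := {0}ᶜ))
    rw [hh_zero p τ hp0, neg_neg, zero_mul, add_zero] at h3
    rw [Complex.ofReal_exp]
    exact h3
  have h2 : Tendsto (fun z => z * (eps β p τ / (phi β (psi p τ z) - phi β p))) (𝓝[≠] 0) (𝓝 0) := by
    rw [tendsto_zero_iff_norm_tendsto_zero]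
    have h3 : Tendsto (fun z : ℂ => ‖z‖ * (‖eps β p τ‖ / c)) (𝓝[≠] 0) (𝓝 0) := by
      have : ContinuousAt (fun z : ℂ => ‖z‖ * (‖eps β p τ‖ / c)) 0 := by fun_prop
      have h4 := this.tendsto.mono_left (nhdsWithin_le_nhds (s := {0}ᶜ))
      simpa using h4
    apply squeeze_zero' (Eventually.of_forall fun z => norm_nonneg _) _ h3
    filter_upwards [hb] with z hz
    rw [norm_mul, norm_div]
    apply mul_le_mul_of_nonneg_left _ (norm_nonneg _)
    exact div_le_div_of_nonneg_left (norm_nonneg _) hc hz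
  have h3 := h1.add h2
  rw [add_zero] at h3
  apply h3.congr'
  filter_upwards [self_mem_nhdsWithin] with z hz
  have hz0 : z ≠ 0 := hz
  have h4 := Complex.exp_ne_zero (hh p τ z)
  unfold gg phi psi
  rw [mul_inv, ← Complex.exp_neg]
  field_simp

end Pool.Agent.Helper5.CK
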